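import Pool.Agent.LineGrowth.Indep

/-!
Chebyshev bound for the number of occurring events among pairwise independent ones.
-/

set_option autoImplicit false
open MeasureTheory ProbabilityTheory
open scoped ENNReal

namespace Pool.Agent.LineGrowth

/-- Chebyshev: if the expected number is at least `ν`, the number is at most `ν / 2` with
probability at most `4 / ν`. -/
lemma cheb {p : ℝ} (h0 : 0 ≤ p) (h1 : p ≤ 1) {ι : Type*} [DecidableEq ι] (s : Finset ι)
    (A : ι → Set Cfg) (F : ι → Finset (ℤ × ℤ)) (hA : ∀ i ∈ s, DetBy (A i) (F i))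
    (hd : ∀ i ∈ s, ∀ j ∈ s, i ≠ j → Disjoint (F i) (F j)) (ν : ℝ) (hν : 0 < ν)
    (hsum : ν ≤ ∑ i ∈ s, (initLaw p).real (A i)) :
    (initLaw p).real {ω | (∑ i ∈ s, (A i).indicator (fun _ => (1 : ℝ)) ω) ≤ ν / 2} ≤ 4 / ν := by
  haveI := initLaw_prob h0 h1
  set μ := initLaw p with hμ
  set X : ι → Cfg → ℝ := fun i => (A i).indicator (fun _ => (1 : ℝ)) with hX
  have hmeas : ∀ i ∈ s, MeasurableSet (A i) := fun i hi => (hA i hi).measurableSet
  have hLp : ∀ i ∈ s, MemLp (X i) 2 μ := by
    intro i hi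
    exact memLp_indicator_const 2 (hmeas i hi) 1 (Or.inr (measure_ne_top _ _))
  have hint : ∀ i ∈ s, ∫ ω, X i ω ∂μ = μ.real (A i) := by
    intro i hi
    rw [hX]; simp only
    rw [integral_indicator_const _ (hmeas i hi)]
    simp
  set m : ℝ := ∑ i ∈ s, μ.real (A i) with hm
  have hsumLp : MemLp (∑ i ∈ s, X i) 2 μ := memLp_finsetSum' _ hLp
  have hmean : ∫ ω, (∑ i ∈ s, X i) ω ∂μ = m := by
    simp only [Finset.sum_apply]
    rw [integral_finsetSum _ (fun i hi => (hLp i hi).integrable (by norm_num)), hm]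
    exact Finset.sum_congr rfl hint
  have hvar : variance (∑ i ∈ s, X i) μ ≤ m := by
    rw [variance_sum' hLp, hm]
    apply Finset.sum_le_sum
    intro i hi
    rw [Finset.sum_eq_single_of_mem i hi]
    · rw [covariance_self (hLp i hi).aemeasurable, variance_eq_sub (hLp i hi)]
      have h3 : ∫ ω, (X i ^ 2) ω ∂μ = μ.real (A i) := by
        rw [← hint i hi]
        refine integral_congr_ae (Filter.Eventually.of_forall fun ω => ?_)
        simp only [Pi.pow_apply, hX]
        by_cases hω : ω ∈ A i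
        · simp [Set.indicator_of_mem hω]
        · simp [Set.indicator_of_notMem hω]
      rw [h3]
      nlinarith [sq_nonneg (∫ ω, X i ω ∂μ)]
    · intro j hj hji
      rw [covariance_eq_sub (hLp i hi) (hLp j hj), hint i hi, hint j hj]
      have h4 : ∫ ω, (X i * X j) ω ∂μ = μ.real (A i ∩ A j) := by
        have : (X i * X j) = (A i ∩ A j).indicator (fun _ => (1 : ℝ)) := by
          funext ω
          simp only [Pi.mul_apply, hX]
          by_cases hi' : ω ∈ A i <;> by_cases hj' : ω ∈ A j <;>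
            simp [Set.indicator, hi', hj']
        rw [this, integral_indicator_const _ ((hmeas i hi).inter (hmeas j hj))]
        simp
      rw [h4, real_indep h0 h1 (hA i hi) (hA j hj) (hd i hi j hj hji.symm)]
      exact sub_self _
  have hm0 : 0 < m := lt_of_lt_of_le hν hsum
  have hch := meas_ge_le_variance_div_sq hsumLp (c := m / 2) (by positivity)
  rw [hmean] at hch
  have hsub : {ω | (∑ i ∈ s, (A i).indicator (fun _ => (1 : ℝ)) ω) ≤ ν / 2} ⊆
      {ω | m / 2 ≤ |(∑ i ∈ s, X i) ω - m|} := by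
    intro ω hω
    simp only [Set.mem_setOf_eq, Finset.sum_apply] at hω ⊢
    rw [abs_sub_comm, le_abs]
    left
    have : ∑ i ∈ s, X i ω ≤ ν / 2 := hω
    linarith
  calc μ.real {ω | (∑ i ∈ s, (A i).indicator (fun _ => (1 : ℝ)) ω) ≤ ν / 2}
      ≤ μ.real {ω | m / 2 ≤ |(∑ i ∈ s, X i) ω - m|} := measureReal_mono hsub
    _ ≤ variance (∑ i ∈ s, X i) μ / (m / 2) ^ 2 := by
        unfold Measure.real
        refine ENNReal.toReal_le_of_le_ofReal ?_ hch
        exact div_nonneg (variance_nonneg _ _) (by positivity)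
    _ ≤ m / (m / 2) ^ 2 := by gcongr
    _ = 4 / m := by field_simp; norm_num
    _ ≤ 4 / ν := by gcongr

end Pool.Agent.LineGrowth
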