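import Pool.Agent.LineGrowth.Process

/-!
Deterministic consequence of success of the exploration process.
-/

set_option autoImplicit false

namespace Pool.Agent.LineGrowth

/-- The initial occupied set. -/
def occ (ω : Cfg) : Set (ℤ × ℤ) := {x | ω x = true}

lemma lineEv_attS {r s : ℕ} {K : Finset ℕ} {v : ℤ} {ω : Cfg}
    (h : ω ∈ lineEv K (attS r s v)) :
    ∃ g ∈ K, st s ((r : ℤ) * g + ((r : ℤ) - 1)) v ∈ occ ω := by
  obtain ⟨g, hg, h2⟩ := h
  exact ⟨g, hg, h2 _ (by unfold attS; exact Finset.mem_singleton_self _)⟩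

lemma lineEv_att0 {r : ℕ} {K : Finset ℕ} {v : ℤ} {ω : Cfg}
    (h : ω ∈ lineEv K (att0 r v)) :
    ∃ g ∈ K, ∀ k : ℕ, k < r → st 0 ((r : ℤ) * g + k) v ∈ occ ω := by
  obtain ⟨g, hg, h2⟩ := h
  refine ⟨g, hg, fun k hk => h2 _ ?_⟩
  unfold att0
  rw [Finset.mem_image]
  exact ⟨k, Finset.mem_range.mpr hk, rfl⟩

/-- Full crossing lines plus one extra site give `r` consecutive occupied sites. -/
lemma crossing {r ρ s : ℕ} (hr : 1 ≤ r) {ξ : Set (ℤ × ℤ)} {n : ℕ} {v a : ℤ}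
    (h1 : ∀ i : ℕ, i < r - 1 → st s v (a + i) ∈ (step r ρ)^[n] ξ)
    (h2 : st (s + 1) (a + ((r : ℤ) - 1)) v ∈ ξ) :
    ∀ k : ℕ, k < r → st (s + 1) (a + k) v ∈ (step r ρ)^[n] ξ := by
  intro k hk
  by_cases hk' : k < r - 1
  · rw [st_succ]
    exact h1 k hk'
  · have hk2 : k = r - 1 := by omega
    have hcast : ((k : ℕ) : ℤ) = (r : ℤ) - 1 := by
      rw [hk2]; push_cast [hr]; ring
    rw [hcast]
    exact iter_mono_time r ρ ξ (Nat.zero_le n) h2

lemma lines_full {r ρ : ℕ} (hr : 1 ≤ r) (hρ : r ≤ ρ) (b S : ℕ) (ω : Cfg) (s : ℕ) (hs : s ≤ S) :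
    ∃ n : ℕ, n + r * 2 ^ (S + 3 - s) * b ≤ r * 2 ^ (S + 4) * b ∧
      ∀ c ∈ V r b S ω s, ∀ i : ℕ, i < r - 1 → ∀ u : ℤ, 0 ≤ u →
        u < (r : ℤ) * 2 ^ (S + 3 - s) * b →
        st s u ((r : ℤ) * c + i) ∈ (step r ρ)^[n] (occ ω) := by
  induction s with
  | zero =>
    refine ⟨0 + r * 2 ^ (S + 3) * b, ?_, ?_⟩
    · simp only [Nat.sub_zero]
      have : r * 2 ^ (S + 4) * b = r * 2 ^ (S + 3) * b + r * 2 ^ (S + 3) * b := by ring
      omega
    · intro c hc i hi u hu0 hu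
      rw [V, mem_goodCells] at hc
      obtain ⟨g, hg, h2⟩ := lineEv_att0 (hc.2 i hi)
      rw [mem_cells] at hg
      have hg2 : (r : ℤ) * g + ((0 : ℕ) : ℤ) < r * 2 ^ (S + 3) * b := cell_lt hg.2 (by omega)
      simp only [Nat.cast_zero, add_zero] at hg2
      simp only [Nat.sub_zero] at hu
      have hg0 : (0 : ℤ) ≤ (r : ℤ) * g := by positivity
      have hr' : (1 : ℤ) ≤ r := by exact_mod_cast hr
      apply grow hr hρ (n := 0) (a := (r : ℤ) * g) h2 (r * 2 ^ (S + 3) * b) u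
      · push_cast; linarith
      · push_cast; linarith
  | succ s ih =>
    obtain ⟨n, hn, ih⟩ := ih (by omega)
    have e1 : S + 3 - s = S + 2 - s + 1 := by omega
    have e2 : S + 3 - (s + 1) = S + 2 - s := by omega
    refine ⟨n + r * 2 ^ (S + 2 - s) * b, ?_, ?_⟩
    · rw [e2]
      rw [e1] at hn
      have : r * 2 ^ (S + 2 - s + 1) * b = r * 2 ^ (S + 2 - s) * b + r * 2 ^ (S + 2 - s) * b := by
        ring
      omega
    · intro c hc i hi u hu0 hu
      rw [V, mem_goodCells] at hc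
      obtain ⟨g, hg, h2⟩ := lineEv_attS (hc.2 i hi)
      have hgc := V_subset r b S ω s (by omega) hg
      rw [mem_cells] at hgc
      have hcc := hc.1
      rw [mem_cells] at hcc
      have hir : i < r := by omega
      have hv : (r : ℤ) * c + i < r * 2 ^ (S - s + 1) * b := cell_lt hcc.2 hir
      have hv2 := pow_mono_mul (r := r) (b := b) (show S - s + 1 ≤ S + 3 - s by omega)
      have hnuc := crossing (r := r) (ρ := ρ) (s := s) (ξ := occ ω) (n := n)
        (v := (r : ℤ) * c + i) (a := (r : ℤ) * g) hr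
        (fun i' hi' => ih g hg i' hi' ((r : ℤ) * c + i) (by positivity) (hv.trans_le hv2)) h2
      have hg2 : (r : ℤ) * g + ((0 : ℕ) : ℤ) < r * 2 ^ (S + 1 - s + 1) * b :=
        cell_lt hgc.2 (by omega)
      have e3 : S + 1 - s + 1 = S + 2 - s := by omega
      rw [e3] at hg2
      simp only [Nat.cast_zero, add_zero] at hg2
      rw [e2] at hu
      have hg0 : (0 : ℤ) ≤ (r : ℤ) * g := by positivity
      have hr' : (1 : ℤ) ≤ r := by exact_mod_cast hr
      apply grow hr hρ (n := n) (a := (r : ℤ) * g) hnuc (r * 2 ^ (S + 2 - s) * b) u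
      · push_cast; linarith
      · push_cast; linarith

/-- If the last stage succeeds, then the origin is occupied by time `r 2^(S+4) b`. -/
theorem origin_occupied {r ρ : ℕ} (hr : 1 ≤ r) (hρ : r ≤ ρ) (b S : ℕ) (ω : Cfg) (c : ℕ)
    (hc : c ∈ goodCells r (V r b S ω S) (attS r (S + 1)) r (cells b 0) ω) :
    ∃ n : ℕ, n ≤ r * 2 ^ (S + 4) * b ∧ ((0 : ℤ), (0 : ℤ)) ∈ (step r ρ)^[n] (occ ω) := by
  obtain ⟨n, hn, hfull⟩ := lines_full hr hρ b S ω S le_rfl
  have e1 : S + 3 - S = 3 := by omega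
  rw [e1] at hn hfull
  rw [mem_goodCells] at hc
  have hcc := hc.1
  rw [mem_cells] at hcc
  have hr' : (1 : ℤ) ≤ r := by exact_mod_cast hr
  have hlast : ∀ i : ℕ, i < r →
      st (S + 1) 0 ((r : ℤ) * c + i) ∈ (step r ρ)^[n + r * 2 ^ 2 * b] (occ ω) := by
    intro i hi
    obtain ⟨g, hg, h2⟩ := lineEv_attS (hc.2 i hi)
    have hgc := V_subset r b S ω S le_rfl hg
    have e2 : S + 1 - S = 1 := by omega
    rw [e2, mem_cells] at hgc
    have hv : (r : ℤ) * c + i < r * 2 ^ (0 + 1) * b := cell_lt hcc.2 hi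
    have hv2 := pow_mono_mul (r := r) (b := b) (show 0 + 1 ≤ 3 by omega)
    have hnuc := crossing (r := r) (ρ := ρ) (s := S) (ξ := occ ω) (n := n)
      (v := (r : ℤ) * c + i) (a := (r : ℤ) * g) hr
      (fun i' hi' => hfull g hg i' hi' ((r : ℤ) * c + i) (by positivity) (hv.trans_le hv2)) h2
    have hg2 : (r : ℤ) * g + ((0 : ℕ) : ℤ) < r * 2 ^ (1 + 1) * b := cell_lt hgc.2 (by omega)
    simp only [Nat.cast_zero, add_zero] at hg2
    have hg0 : (0 : ℤ) ≤ (r : ℤ) * g := by positivity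
    have hg3 : (r : ℤ) * g < r * 2 ^ 2 * b := by
      have : (1 + 1 : ℕ) = 2 := rfl
      rw [this] at hg2
      exact hg2
    apply grow hr hρ (n := n) (a := (r : ℤ) * g) hnuc (r * 2 ^ 2 * b) 0
    · push_cast; linarith
    · push_cast; linarith [show (0 : ℤ) ≤ r * 2 ^ 2 * b by positivity]
  have hnuc2 : ∀ k : ℕ, k < r →
      st (S + 2) ((r : ℤ) * c + k) 0 ∈ (step r ρ)^[n + r * 2 ^ 2 * b] (occ ω) := by
    intro k hk
    rw [st_succ]
    exact hlast k hk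
  have hc2 : (r : ℤ) * c + ((0 : ℕ) : ℤ) < r * 2 ^ (0 + 1) * b := cell_lt hcc.2 (by omega)
  simp only [Nat.cast_zero, add_zero, zero_add] at hc2
  have hc0 : (0 : ℤ) ≤ (r : ℤ) * c := by positivity
  have hfin := grow hr hρ (n := n + r * 2 ^ 2 * b) (a := (r : ℤ) * c) hnuc2 (r * 2 ^ 1 * b) 0
    (by push_cast; linarith)
    (by push_cast; linarith [show (0 : ℤ) ≤ r * 2 ^ 1 * b by positivity])
  refine ⟨n + r * 2 ^ 2 * b + r * 2 ^ 1 * b, ?_, ?_⟩
  · have e3 : r * 2 ^ 3 * b = r * 2 ^ 2 * b + r * 2 ^ 1 * b + r * 2 ^ 1 * b := by ring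
    omega
  · have e4 : st (S + 2) 0 0 = ((0 : ℤ), (0 : ℤ)) := by
      unfold st; split_ifs <;> rfl
    rw [e4] at hfin
    exact hfin

end Pool.Agent.LineGrowth
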