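import Mathlib

/-!
Deterministic facts on symmetric line growth.
-/

set_option autoImplicit false

namespace Pool.Agent.LineGrowth

/-- Horizontal arm of radius `ρ` at `x`. -/
def armH (ρ : ℕ) (x : ℤ × ℤ) : Set (ℤ × ℤ) := {y | |y.1 - x.1| ≤ ρ ∧ y.2 = x.2}

/-- Vertical arm of radius `ρ` at `x`. -/
def armV (ρ : ℕ) (x : ℤ × ℤ) : Set (ℤ × ℤ) := {y | y.1 = x.1 ∧ |y.2 - x.2| ≤ ρ}

/-- One step of symmetric line growth with threshold `r`. -/
def step (r ρ : ℕ) (ξ : Set (ℤ × ℤ)) : Set (ℤ × ℤ) :=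
  ξ ∪ {x | r ≤ (armH ρ x ∩ ξ).ncard ∨ r ≤ (armV ρ x ∩ ξ).ncard}

lemma armH_finite (ρ : ℕ) (x : ℤ × ℤ) : (armH ρ x).Finite := by
  have : armH ρ x ⊆ (fun y : ℤ => (y, x.2)) '' Set.Icc (x.1 - ρ) (x.1 + ρ) := by
    rintro ⟨a, b⟩ ⟨h1, h2⟩
    simp only at h1 h2
    rw [abs_le] at h1
    exact ⟨a, ⟨by linarith, by linarith⟩, by rw [h2]⟩
  exact ((Set.finite_Icc _ _).image _).subset this

lemma armV_finite (ρ : ℕ) (x : ℤ × ℤ) : (armV ρ x).Finite := by
  have : armV ρ x ⊆ (fun y : ℤ => (x.1, y)) '' Set.Icc (x.2 - ρ) (x.2 + ρ) := by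
    rintro ⟨a, b⟩ ⟨h1, h2⟩
    simp only at h1 h2
    rw [abs_le] at h2
    exact ⟨b, ⟨by linarith, by linarith⟩, by rw [h1]⟩
  exact ((Set.finite_Icc _ _).image _).subset this

lemma subset_step (r ρ : ℕ) (ξ : Set (ℤ × ℤ)) : ξ ⊆ step r ρ ξ := Set.subset_union_left

lemma iter_mono_time (r ρ : ℕ) (ξ : Set (ℤ × ℤ)) {m n : ℕ} (h : m ≤ n) :
    (step r ρ)^[m] ξ ⊆ (step r ρ)^[n] ξ := by
  induction n, h using Nat.le_induction with
  | base => exact subset_rfl
  | succ n _ ih =>
    rw [Function.iterate_succ_apply']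
    exact ih.trans (subset_step _ _ _)

/-- The site at position `u` on line `v`, in direction `s` (horizontal lines for even `s`). -/
def st (s : ℕ) (u v : ℤ) : ℤ × ℤ := if Even s then (u, v) else (v, u)

lemma st_succ (s : ℕ) (u v : ℤ) : st (s + 1) u v = st s v u := by
  unfold st
  by_cases h : Even s
  · have : ¬ Even (s + 1) := by rw [Nat.even_add_one]; exact not_not.mpr h
    rw [if_neg this, if_pos h]
  · have : Even (s + 1) := by rw [Nat.even_add_one]; exact h
    rw [if_pos this, if_neg h]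

lemma st_inj {s : ℕ} {u v u' v' : ℤ} : st s u v = st s u' v' ↔ u = u' ∧ v = v' := by
  unfold st
  by_cases h : Even s
  · rw [if_pos h, if_pos h, Prod.mk.injEq]
  · rw [if_neg h, if_neg h, Prod.mk.injEq, and_comm]

/-- `r` consecutive occupied sites occupy the neighbouring sites of the line. -/
lemma nucleus {r ρ s : ℕ} {ξ : Set (ℤ × ℤ)} {a u v : ℤ}
    (h : ∀ k : ℕ, k < r → st s (a + k) v ∈ ξ) (h1 : u - ρ ≤ a) (h2 : a + r - 1 ≤ u + ρ) :
    st s u v ∈ step r ρ ξ := by
  classical
  set F : Finset (ℤ × ℤ) := (Finset.range r).image (fun k : ℕ => st s (a + k) v) with hF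
  have hcard : F.card = r := by
    rw [hF, Finset.card_image_of_injective, Finset.card_range]
    intro k k' hk
    have := (st_inj.mp hk).1
    have h3 : (k : ℤ) = k' := by linarith
    exact_mod_cast h3
  have hFξ : ∀ x ∈ F, x ∈ ξ := by
    intro x hx
    rw [hF, Finset.mem_image] at hx
    obtain ⟨k, hk, rfl⟩ := hx
    exact h k (Finset.mem_range.mp hk)
  have habs : ∀ k : ℕ, k < r → |a + k - u| ≤ ρ := by
    intro k hk
    rw [abs_le]
    have : (k : ℤ) ≤ r - 1 := by
      have : k + 1 ≤ r := hk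
      have : ((k : ℤ) + 1) ≤ r := by exact_mod_cast this
      linarith
    constructor <;> linarith [Int.natCast_nonneg k]
  right
  by_cases hs : Even s
  · left
    have hsub : (F : Set (ℤ × ℤ)) ⊆ armH ρ (st s u v) ∩ ξ := by
      intro x hx
      refine ⟨?_, hFξ x hx⟩
      rw [Finset.mem_coe, hF, Finset.mem_image] at hx
      obtain ⟨k, hk, rfl⟩ := hx
      have := habs k (Finset.mem_range.mp hk)
      simp only [armH, st, if_pos hs, Set.mem_setOf_eq]
      exact ⟨this, trivial⟩
    calc r = F.card := hcard.symm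
      _ = (F : Set (ℤ × ℤ)).ncard := (Set.ncard_coe_finset F).symm
      _ ≤ _ := Set.ncard_le_ncard hsub ((armH_finite ρ _).inter_of_left _)
  · right
    have hsub : (F : Set (ℤ × ℤ)) ⊆ armV ρ (st s u v) ∩ ξ := by
      intro x hx
      refine ⟨?_, hFξ x hx⟩
      rw [Finset.mem_coe, hF, Finset.mem_image] at hx
      obtain ⟨k, hk, rfl⟩ := hx
      have := habs k (Finset.mem_range.mp hk)
      simp only [armV, st, if_neg hs, Set.mem_setOf_eq]
      exact ⟨trivial, this⟩
    calc r = F.card := hcard.symm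
      _ = (F : Set (ℤ × ℤ)).ncard := (Set.ncard_coe_finset F).symm
      _ ≤ _ := Set.ncard_le_ncard hsub ((armV_finite ρ _).inter_of_left _)

/-- Linear growth of an occupied interval of length at least `r`. -/
lemma grow {r ρ s : ℕ} (hr : 1 ≤ r) (hρ : r ≤ ρ) {ξ : Set (ℤ × ℤ)} {n : ℕ} {a v : ℤ}
    (h : ∀ k : ℕ, k < r → st s (a + k) v ∈ (step r ρ)^[n] ξ) (m : ℕ) :
    ∀ u : ℤ, a - m ≤ u → u ≤ a + r - 1 + m → st s u v ∈ (step r ρ)^[n + m] ξ := by
  have hr' : (1 : ℤ) ≤ r := by exact_mod_cast hr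
  have hρ' : (r : ℤ) ≤ ρ := by exact_mod_cast hρ
  induction m with
  | zero =>
    intro u h1 h2
    simp only [Nat.cast_zero, sub_zero, add_zero] at h1 h2
    obtain ⟨k, hk⟩ := Int.eq_ofNat_of_zero_le (sub_nonneg.mpr h1)
    have hk' : k < r := by
      have : (k : ℤ) < r := by rw [← hk]; linarith
      exact_mod_cast this
    have h3 := h k hk'
    have : a + k = u := by rw [← hk]; ring
    rw [this] at h3
    exact h3
  | succ m ih =>
    intro u h1 h2
    push_cast at h1 h2
    rw [← add_assoc, Function.iterate_succ_apply']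
    by_cases hlo : u < a - m
    · apply nucleus (a := a - m)
      · intro k hk
        have hk' : (k : ℤ) ≤ r - 1 := by
          have : ((k : ℤ) + 1) ≤ r := by exact_mod_cast hk
          linarith
        exact ih _ (by linarith [Int.natCast_nonneg k]) (by linarith [Int.natCast_nonneg m])
      · linarith
      · linarith
    · by_cases hhi : a + r - 1 + m < u
      · apply nucleus (a := a + m)
        · intro k hk
          have hk' : (k : ℤ) ≤ r - 1 := by
            have : ((k : ℤ) + 1) ≤ r := by exact_mod_cast hk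
            linarith
          exact ih _ (by linarith [Int.natCast_nonneg k, Int.natCast_nonneg m]) (by linarith)
        · linarith
        · linarith
      · exact subset_step _ _ _ (ih u (not_lt.mp hlo) (not_lt.mp hhi))

end Pool.Agent.LineGrowth
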