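import Mathlib

/-!
Product Bernoulli measure on configurations of `ℤ × ℤ` and independence of events determined by
disjoint finite sets of sites.
-/

set_option autoImplicit false
open MeasureTheory ProbabilityTheory
open scoped ENNReal

namespace Pool.Agent.LineGrowth

/-- Configurations. -/
abbrev Cfg := ℤ × ℤ → Bool

/-- Law of one site: occupied with probability `p`. -/
noncomputable def siteLaw (p : ℝ) : Measure Bool :=
  ENNReal.ofReal p • Measure.dirac true + ENNReal.ofReal (1 - p) • Measure.dirac false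

/-- Product law. -/
noncomputable def initLaw (p : ℝ) : Measure Cfg := Measure.infinitePi fun _ => siteLaw p

lemma siteLaw_prob {p : ℝ} (h0 : 0 ≤ p) (h1 : p ≤ 1) : IsProbabilityMeasure (siteLaw p) := by
  constructor
  simp only [siteLaw, Measure.add_apply, Measure.smul_apply, measure_univ, smul_eq_mul, mul_one]
  rw [← ENNReal.ofReal_add h0 (by linarith)]
  simp

/-- The event `A` is determined by the sites in `F`. -/
def DetBy (A : Set Cfg) (F : Finset (ℤ × ℤ)) : Prop :=
  ∀ ω ω' : Cfg, (∀ x ∈ F, ω x = ω' x) → (ω ∈ A ↔ ω' ∈ A)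

lemma DetBy.mono {A : Set Cfg} {F G : Finset (ℤ × ℤ)} (h : DetBy A F) (hFG : F ⊆ G) :
    DetBy A G := fun ω ω' hω => h ω ω' fun x hx => hω x (hFG hx)

lemma DetBy.compl {A : Set Cfg} {F : Finset (ℤ × ℤ)} (h : DetBy A F) : DetBy Aᶜ F :=
  fun ω ω' hω => not_congr (h ω ω' hω)

lemma DetBy.inter {A B : Set Cfg} {F G : Finset (ℤ × ℤ)} (hA : DetBy A F) (hB : DetBy B G) :
    DetBy (A ∩ B) (F ∪ G) := fun ω ω' hω =>
  and_congr (hA ω ω' fun x hx => hω x (Finset.mem_union_left _ hx))
    (hB ω ω' fun x hx => hω x (Finset.mem_union_right _ hx))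

lemma DetBy.exists_preimage {A : Set Cfg} {F : Finset (ℤ × ℤ)} (h : DetBy A F) :
    ∃ A' : Set (F → Bool), A = (fun (ω : Cfg) (i : F) => ω i) ⁻¹' A' := by
  refine ⟨(fun (ω : Cfg) (i : F) => ω i) '' A, ?_⟩
  ext ω
  constructor
  · intro hω
    exact ⟨ω, hω, rfl⟩
  · rintro ⟨ω', hω', he⟩
    refine (h ω' ω ?_).mp hω'
    intro x hx
    exact congrFun he ⟨x, hx⟩

lemma DetBy.measurableSet {A : Set Cfg} {F : Finset (ℤ × ℤ)} (h : DetBy A F) :
    MeasurableSet A := by
  obtain ⟨A', rfl⟩ := h.exists_preimage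
  have hm : Measurable (fun (ω : Cfg) (i : F) => ω i) := by fun_prop
  exact hm (Set.toFinite A').measurableSet

/-- Independence of events determined by disjoint finite sets. -/
lemma indep_of_detBy {p : ℝ} (h0 : 0 ≤ p) (h1 : p ≤ 1) {A B : Set Cfg} {F G : Finset (ℤ × ℤ)}
    (hA : DetBy A F) (hB : DetBy B G) (hFG : Disjoint F G) :
    initLaw p (A ∩ B) = initLaw p A * initLaw p B := by
  haveI := siteLaw_prob h0 h1
  have hind : iIndepFun (fun (i : ℤ × ℤ) (ω : Cfg) => ω i) (initLaw p) :=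
    iIndepFun_infinitePi (P := fun _ : ℤ × ℤ => siteLaw p) (X := fun _ b => b)
      (fun _ => measurable_id)
  have h2 := hind.indepFun_finset F G hFG (fun i => measurable_pi_apply i)
  obtain ⟨A', rfl⟩ := hA.exists_preimage
  obtain ⟨B', rfl⟩ := hB.exists_preimage
  exact h2.measure_inter_preimage_eq_mul A' B' (Set.toFinite A').measurableSet
    (Set.toFinite B').measurableSet

lemma initLaw_prob {p : ℝ} (h0 : 0 ≤ p) (h1 : p ≤ 1) : IsProbabilityMeasure (initLaw p) := by
  haveI := siteLaw_prob h0 h1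
  unfold initLaw
  infer_instance

lemma measure_site {p : ℝ} (h0 : 0 ≤ p) (h1 : p ≤ 1) (x : ℤ × ℤ) :
    initLaw p {ω | ω x = true} = ENNReal.ofReal p := by
  haveI := siteLaw_prob h0 h1
  have h2 : initLaw p {ω | ω x = true} = (initLaw p).map (fun ω => ω x) {true} := by
    rw [Measure.map_apply (measurable_pi_apply x) (measurableSet_singleton _)]
    rfl
  have h3 : (initLaw p).map (fun ω => ω x) = siteLaw p :=
    Measure.infinitePi_map_eval (fun _ : ℤ × ℤ => siteLaw p) x
  rw [h2, h3]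
  simp [siteLaw]

lemma detBy_site (x : ℤ × ℤ) : DetBy {ω | ω x = true} {x} := by
  intro ω ω' h
  simp only [Set.mem_setOf_eq]
  rw [h x (Finset.mem_singleton_self x)]

/-- Real valued version of the independence. -/
lemma real_indep {p : ℝ} (h0 : 0 ≤ p) (h1 : p ≤ 1) {A B : Set Cfg} {F G : Finset (ℤ × ℤ)}
    (hA : DetBy A F) (hB : DetBy B G) (hFG : Disjoint F G) :
    (initLaw p).real (A ∩ B) = (initLaw p).real A * (initLaw p).real B := by
  unfold Measure.real
  rw [indep_of_detBy h0 h1 hA hB hFG, ENNReal.toReal_mul]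

lemma real_site {p : ℝ} (h0 : 0 ≤ p) (h1 : p ≤ 1) (x : ℤ × ℤ) :
    (initLaw p).real {ω | ω x = true} = p := by
  unfold Measure.real
  rw [measure_site h0 h1, ENNReal.toReal_ofReal h0]

/-- Finite intersections of events determined by pairwise disjoint sets. -/
lemma real_biInter {p : ℝ} (h0 : 0 ≤ p) (h1 : p ≤ 1) {ι : Type*} [DecidableEq ι] (s : Finset ι)
    (A : ι → Set Cfg) (F : ι → Finset (ℤ × ℤ)) (hA : ∀ i ∈ s, DetBy (A i) (F i))
    (hd : ∀ i ∈ s, ∀ j ∈ s, i ≠ j → Disjoint (F i) (F j)) :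
    DetBy (⋂ i ∈ s, A i) (s.biUnion F) ∧
    (initLaw p).real (⋂ i ∈ s, A i) = ∏ i ∈ s, (initLaw p).real (A i) := by
  haveI := initLaw_prob h0 h1
  induction s using Finset.induction_on with
  | empty =>
    refine ⟨?_, ?_⟩
    · intro ω ω' _
      simp
    · simp
  | insert a s ha ih =>
    obtain ⟨ih1, ih2⟩ := ih (fun i hi => hA i (Finset.mem_insert_of_mem hi))
      (fun i hi j hj => hd i (Finset.mem_insert_of_mem hi) j (Finset.mem_insert_of_mem hj))
    have hAa := hA a (Finset.mem_insert_self a s)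
    have hdis : Disjoint (F a) (s.biUnion F) := by
      rw [Finset.disjoint_biUnion_right]
      intro i hi
      refine hd a (Finset.mem_insert_self a s) i (Finset.mem_insert_of_mem hi) ?_
      rintro rfl
      exact ha hi
    rw [Finset.set_biInter_insert, Finset.biUnion_insert, Finset.prod_insert ha]
    refine ⟨hAa.inter ih1, ?_⟩
    rw [real_indep h0 h1 hAa ih1 hdis, ih2]

end Pool.Agent.LineGrowth
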