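import Pool.Agent.LineGrowth.Process

/-!
Probability of success of the exploration process.
-/

set_option autoImplicit false
open MeasureTheory ProbabilityTheory
open scoped ENNReal

namespace Pool.Agent.LineGrowth

lemma card_att0 (r : ℕ) (v : ℤ) (g : ℕ) : (att0 r v g).card = r := by
  unfold att0
  rw [Finset.card_image_of_injective, Finset.card_range]
  intro k k' hk
  have := (st_inj.mp hk).1
  have h3 : (k : ℤ) = k' := by linarith
  exact_mod_cast h3

lemma disjoint_att0 {r : ℕ} {v v' : ℤ} {g g' : ℕ} (h : v ≠ v' ∨ g ≠ g') :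
    Disjoint (att0 r v g) (att0 r v' g') := by
  rw [Finset.disjoint_left]
  intro x hx hx'
  unfold att0 at hx hx'
  rw [Finset.mem_image] at hx hx'
  obtain ⟨k, hk, rfl⟩ := hx
  obtain ⟨k', hk', he⟩ := hx'
  rw [Finset.mem_range] at hk hk'
  obtain ⟨e1, e2⟩ := st_inj.mp he
  rcases h with h | h
  · exact h e2.symm
  · apply h
    have e3 : r * g' + k' = r * g + k := by exact_mod_cast e1
    have e4 : (r * g' + k') / r = g' := by
      rw [Nat.mul_add_div (by omega), Nat.div_eq_of_lt hk', add_zero]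
    have e5 : (r * g + k) / r = g := by
      rw [Nat.mul_add_div (by omega), Nat.div_eq_of_lt hk, add_zero]
    rw [← e4, ← e5, e3]

lemma disjoint_attS {r s : ℕ} (hr : 1 ≤ r) {v v' : ℤ} {g g' : ℕ} (h : v ≠ v' ∨ g ≠ g') :
    Disjoint (attS r s v g) (attS r s v' g') := by
  unfold attS
  rw [Finset.disjoint_singleton]
  intro he
  obtain ⟨e1, e2⟩ := st_inj.mp he
  rcases h with h | h
  · exact h e2
  · apply h
    have e3 : (r : ℤ) * g = r * g' := by linarith
    have e4 : (r : ℤ) ≠ 0 := by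
      have : (1 : ℤ) ≤ r := by exact_mod_cast hr
      linarith
    exact_mod_cast mul_left_cancel₀ e4 e3

/-- Initial stage. -/
lemma stage_zero {p : ℝ} (h0 : 0 < p) (h1 : p ≤ 1) (r b S : ℕ) (κ lam : ℝ)
    (hκ : κ = 2 ^ (S + 1) * b * p ^ (r - 1)) (hκ0 : 0 < κ) (hr : 1 ≤ r) (hx : 2 * κ * p ≤ 1)
    (hlam : 0 < lam) (hlamκ : 2 * lam ≤ κ ^ r) :
    (initLaw p).real {ω | ((V r b S ω 0).card : ℝ) < lam} ≤ 2 / lam := by
  haveI := initLaw_prob h0.le h1
  have hrr : r - 1 + 1 = r := by omega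
  have h2 := stage h0.le h1 r (cells b (S + 2)) (att0 r) (r - 1) (by omega) (cells b (S + 1)) r
    (fun v g _ => card_att0 r v g) (fun v v' g _ g' _ h => disjoint_att0 h) (2 * κ * p)
    (by positivity) hx (by
      rw [card_cells]
      push_cast
      rw [hκ]
      have : p ^ r = p ^ (r - 1) * p := by rw [← pow_succ, hrr]
      rw [this]
      apply le_of_eq
      ring) (κ ^ r) (by positivity) (by
      rw [card_cells]
      push_cast
      have e1 : 2 * κ * p / 2 = κ * p := by ring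
      rw [e1, mul_pow]
      have e2 : (2 : ℝ) ^ (S + 1) * b * (κ ^ (r - 1) * p ^ (r - 1)) =
          (2 ^ (S + 1) * b * p ^ (r - 1)) * κ ^ (r - 1) := by ring
      rw [e2, ← hκ, ← pow_succ', hrr])
  calc (initLaw p).real {ω | ((V r b S ω 0).card : ℝ) < lam}
      ≤ (initLaw p).real {ω | ((goodCells r (cells b (S + 2)) (att0 r) (r - 1)
          (cells b (S + 1)) ω).card : ℝ) ≤ κ ^ r / 2} := by
        apply measureReal_mono _ (measure_ne_top _ _)
        intro ω hω
        simp only [Set.mem_setOf_eq, V] at hω ⊢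
        linarith
    _ ≤ 4 / κ ^ r := h2
    _ ≤ 4 / (2 * lam) := by gcongr
    _ = 2 / lam := by field_simp; norm_num

lemma numeric {m s S b : ℕ} {p κ lam : ℝ} (h0 : 0 < p) (hm : 2 ≤ m) (hs : s + 1 ≤ S)
    (hκ : κ = 2 ^ (S + 1) * b * p ^ m) (hκ0 : 0 < κ) (hlam : 1 ≤ lam)
    (hκlam : 2 ^ (m + 4) ≤ κ * lam) :
    2 * (lam * 4 ^ (s + 1)) ≤ (2 ^ (S - s) * b) * ((lam * 4 ^ s * p) / 2) ^ m := by
  have hz1 : 1 ≤ lam * 4 ^ s := by
    have : (1 : ℝ) ≤ 4 ^ s := one_le_pow₀ (by norm_num)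
    nlinarith
  set z := lam * 4 ^ s with hz
  have e1 : ((z * p) / 2) ^ m = z ^ m * p ^ m / 2 ^ m := by
    rw [div_pow, mul_pow]
  have e2 : (2 : ℝ) ^ (S + 1) = 2 ^ (S - s) * 2 ^ (s + 1) := by
    rw [← pow_add]; congr 1; omega
  have e3 : (2 : ℝ) ^ (S - s) * b * p ^ m = κ / 2 ^ (s + 1) := by
    rw [hκ, e2]; field_simp
  have e4 : (2 ^ (S - s) * b : ℝ) * ((z * p) / 2) ^ m = κ * z ^ m / (2 ^ (s + 1) * 2 ^ m) := by
    rw [e1]
    calc (2 ^ (S - s) * b : ℝ) * (z ^ m * p ^ m / 2 ^ m)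
        = (2 ^ (S - s) * b * p ^ m) * z ^ m / 2 ^ m := by ring
      _ = κ / 2 ^ (s + 1) * z ^ m / 2 ^ m := by rw [e3]
      _ = κ * z ^ m / (2 ^ (s + 1) * 2 ^ m) := by
          rw [div_mul_eq_mul_div, div_div]
  rw [e4, le_div_iff₀ (by positivity)]
  have h5 : z ^ 2 ≤ z ^ m := pow_le_pow_right₀ hz1 hm
  have h6 : (2 : ℝ) ^ s ≤ 4 ^ s := pow_le_pow_left₀ (by norm_num) (by norm_num) s
  have h7 : 2 ^ (m + 4) * 4 ^ s ≤ κ * z := by
    rw [hz, ← mul_assoc]
    exact mul_le_mul_of_nonneg_right hκlam (by positivity)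
  calc 2 * (lam * 4 ^ (s + 1)) * (2 ^ (s + 1) * 2 ^ m)
      = (2 ^ (m + 4) * 2 ^ s) * z := by rw [hz]; ring
    _ ≤ (2 ^ (m + 4) * 4 ^ s) * z := by gcongr
    _ ≤ (κ * z) * z := by gcongr
    _ = κ * z ^ 2 := by ring
    _ ≤ κ * z ^ m := by gcongr

/-- Later stages. -/
lemma stage_succ {p : ℝ} (h0 : 0 < p) (h1 : p ≤ 1) (r b S : ℕ) (κ lam : ℝ)
    (hκ : κ = 2 ^ (S + 1) * b * p ^ (r - 1)) (hκ0 : 0 < κ) (hr : 3 ≤ r) (hlam : 1 ≤ lam)
    (hκlam : 2 ^ (r - 1 + 4) ≤ κ * lam) (hM : lam * 4 ^ S * p ≤ 1) (s : ℕ) (hs : s + 1 ≤ S) :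
    (initLaw p).real {ω | lam * 4 ^ s ≤ ((V r b S ω s).card : ℝ) ∧
      ((V r b S ω (s + 1)).card : ℝ) < lam * 4 ^ (s + 1)} ≤ 2 / (lam * 4 ^ (s + 1)) := by
  classical
  haveI := initLaw_prob h0.le h1
  set P : Finset (Finset ℕ) := (cells b (S + 1 - s)).powerset.filter
    (fun K => lam * 4 ^ s ≤ (K.card : ℝ)) with hP
  set bad : Finset ℕ → Set Cfg := fun K =>
    {ω | ((goodCells r K (attS r (s + 1)) (r - 1) (cells b (S - s)) ω).card : ℝ) <
      lam * 4 ^ (s + 1)} with hbad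
  have hsub : {ω | lam * 4 ^ s ≤ ((V r b S ω s).card : ℝ) ∧
      ((V r b S ω (s + 1)).card : ℝ) < lam * 4 ^ (s + 1)} ⊆
      {ω | V r b S ω s ∈ P ∧ ω ∈ bad (V r b S ω s)} := by
    rintro ω ⟨h2, h3⟩
    refine ⟨?_, ?_⟩
    · rw [hP, Finset.mem_filter, Finset.mem_powerset]
      exact ⟨V_subset r b S ω s (by omega), h2⟩
    · exact h3
  refine (measureReal_mono hsub (measure_ne_top _ _)).trans ?_
  apply adapt h0.le h1 (fun ω => V r b S ω s) (outer r b S (r * 2 ^ (S + 2 - s) * b))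
    (inner r b S (r * 2 ^ (S + 2 - s) * b))
    (fun ω ω' h => V_congr r b S (by omega) s (by omega) ω ω' h) P bad
  · intro K hK
    rw [hP, Finset.mem_filter, Finset.mem_powerset] at hK
    intro ω ω' h
    simp only [hbad, Set.mem_setOf_eq]
    rw [goodCells_congr r K (attS r (s + 1)) (r - 1) (cells b (S - s)) ω ω']
    intro x hx
    apply h
    have h2 : S + 2 - s = S + 1 - s + 1 := by omega
    rw [h2]
    exact supp_inner r b S (S + 1 - s) (S - s) (by omega) (by omega) (s + 1) K hK.1 (by omega)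
      (r - 1) (by omega) hx
  · exact disjoint_outer_inner _ _ _ _
  · positivity
  · intro K hK
    rw [hP, Finset.mem_filter, Finset.mem_powerset] at hK
    have hMs : lam * 4 ^ s * p ≤ 1 := by
      refine le_trans ?_ hM
      have : (4 : ℝ) ^ s ≤ 4 ^ S := pow_le_pow_right₀ (by norm_num) (by omega)
      gcongr
    have h2 := stage h0.le h1 r K (attS r (s + 1)) (r - 1) (by omega) (cells b (S - s)) 1
      (fun v g _ => by unfold attS; exact Finset.card_singleton _)
      (fun v v' g _ g' _ h => disjoint_attS (by omega) h) (lam * 4 ^ s * p)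
      (by positivity) hMs (by
        rw [pow_one]
        exact mul_le_mul_of_nonneg_right hK.2 h0.le) (2 * (lam * 4 ^ (s + 1))) (by positivity)
        (by
          rw [card_cells]
          push_cast
          exact numeric h0 (by omega) hs hκ hκ0 hlam hκlam)
    calc (initLaw p).real (bad K)
        ≤ (initLaw p).real {ω | ((goodCells r K (attS r (s + 1)) (r - 1)
            (cells b (S - s)) ω).card : ℝ) ≤ (2 * (lam * 4 ^ (s + 1))) / 2} := by
          apply measureReal_mono _ (measure_ne_top _ _)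
          intro ω hω
          simp only [hbad, Set.mem_setOf_eq] at hω ⊢
          linarith
      _ ≤ 4 / (2 * (lam * 4 ^ (s + 1))) := h2
      _ = 2 / (lam * 4 ^ (s + 1)) := by field_simp; norm_num

/-- All stages together. -/
lemma stages {p : ℝ} (h0 : 0 < p) (h1 : p ≤ 1) (r b S : ℕ) (κ lam : ℝ)
    (hκ : κ = 2 ^ (S + 1) * b * p ^ (r - 1)) (hκ0 : 0 < κ) (hr : 3 ≤ r) (hx : 2 * κ * p ≤ 1)
    (hlam : 1 ≤ lam) (hlamκ : 2 * lam ≤ κ ^ r)
    (hκlam : 2 ^ (r - 1 + 4) ≤ κ * lam) (hM : lam * 4 ^ S * p ≤ 1) (s : ℕ) (hs : s ≤ S) :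
    (initLaw p).real {ω | ((V r b S ω s).card : ℝ) < lam * 4 ^ s} ≤
      (3 - (1 / 4) ^ s) / lam := by
  haveI := initLaw_prob h0.le h1
  induction s with
  | zero =>
    have := stage_zero h0 h1 r b S κ lam hκ hκ0 (by omega) hx (by linarith) hlamκ
    simp only [pow_zero, mul_one]
    refine this.trans (le_of_eq ?_)
    norm_num
  | succ s ih =>
    have ih := ih (by omega)
    have h2 := stage_succ h0 h1 r b S κ lam hκ hκ0 hr hlam hκlam hM s hs
    have hsub : {ω | ((V r b S ω (s + 1)).card : ℝ) < lam * 4 ^ (s + 1)} ⊆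
        {ω | ((V r b S ω s).card : ℝ) < lam * 4 ^ s} ∪
        {ω | lam * 4 ^ s ≤ ((V r b S ω s).card : ℝ) ∧
          ((V r b S ω (s + 1)).card : ℝ) < lam * 4 ^ (s + 1)} := by
      intro ω hω
      by_cases h : ((V r b S ω s).card : ℝ) < lam * 4 ^ s
      · left; exact h
      · right; exact ⟨not_lt.mp h, hω⟩
    calc _ ≤ _ := measureReal_mono hsub (measure_ne_top _ _)
      _ ≤ _ := measureReal_union_le _ _
      _ ≤ (3 - (1 / 4) ^ s) / lam + 2 / (lam * 4 ^ (s + 1)) := add_le_add ih h2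
      _ ≤ (3 - (1 / 4) ^ (s + 1)) / lam := by
        have e1 : (2 : ℝ) / (lam * 4 ^ (s + 1)) = (2 * (1 / 4) ^ (s + 1)) / lam := by
          rw [div_pow, one_pow]; field_simp
        rw [e1, ← add_div]
        apply div_le_div_of_nonneg_right _ (by linarith)
        rw [pow_succ]
        nlinarith [pow_pos (show (0 : ℝ) < 1 / 4 by norm_num) s]

/-- The last stage: a cell all of whose `r` lines are good. -/
noncomputable def lastCells (r b S : ℕ) (ω : Cfg) : Finset ℕ :=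
  goodCells r (V r b S ω S) (attS r (S + 1)) r (cells b 0) ω

lemma last_stage {p : ℝ} (h0 : 0 < p) (h1 : p ≤ 1) (r b S : ℕ) (lam : ℝ)
    (hr : 3 ≤ r) (hlam : 1 ≤ lam) (hb : 1 ≤ b) (hM : lam * 4 ^ S * p ≤ 1) :
    (initLaw p).real {ω | lam * 4 ^ S ≤ ((V r b S ω S).card : ℝ) ∧ lastCells r b S ω = ∅} ≤
      4 / (b * (lam * 4 ^ S * p / 2) ^ r) := by
  classical
  haveI := initLaw_prob h0.le h1
  have hb' : (0 : ℝ) < b := by exact_mod_cast hb
  set P : Finset (Finset ℕ) := (cells b (S + 1 - S)).powerset.filter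
    (fun K => lam * 4 ^ S ≤ (K.card : ℝ)) with hP
  set bad : Finset ℕ → Set Cfg := fun K =>
    {ω | goodCells r K (attS r (S + 1)) r (cells b 0) ω = ∅} with hbad
  have hsub : {ω | lam * 4 ^ S ≤ ((V r b S ω S).card : ℝ) ∧ lastCells r b S ω = ∅} ⊆
      {ω | V r b S ω S ∈ P ∧ ω ∈ bad (V r b S ω S)} := by
    rintro ω ⟨h2, h3⟩
    refine ⟨?_, ?_⟩
    · rw [hP, Finset.mem_filter, Finset.mem_powerset]
      exact ⟨V_subset r b S ω S le_rfl, h2⟩
    · exact h3
  refine (measureReal_mono hsub (measure_ne_top _ _)).trans ?_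
  apply adapt h0.le h1 (fun ω => V r b S ω S) (outer r b S (r * 2 ^ (S + 2 - S) * b))
    (inner r b S (r * 2 ^ (S + 2 - S) * b))
    (fun ω ω' h => V_congr r b S (by omega) S le_rfl ω ω' h) P bad
  · intro K hK
    rw [hP, Finset.mem_filter, Finset.mem_powerset] at hK
    intro ω ω' h
    simp only [hbad, Set.mem_setOf_eq]
    rw [goodCells_congr r K (attS r (S + 1)) r (cells b 0) ω ω']
    intro x hx
    apply h
    have h2 : S + 2 - S = S + 1 - S + 1 := by omega
    rw [h2]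
    exact supp_inner r b S (S + 1 - S) 0 (by omega) (by omega) (S + 1) K hK.1 (by omega)
      r le_rfl hx
  · exact disjoint_outer_inner _ _ _ _
  · positivity
  · intro K hK
    rw [hP, Finset.mem_filter, Finset.mem_powerset] at hK
    have h2 := stage h0.le h1 r K (attS r (S + 1)) r le_rfl (cells b 0) 1
      (fun v g _ => by unfold attS; exact Finset.card_singleton _)
      (fun v v' g _ g' _ h => disjoint_attS (by omega) h) (lam * 4 ^ S * p)
      (by positivity) hM (by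
        rw [pow_one]
        exact mul_le_mul_of_nonneg_right hK.2 h0.le) (b * (lam * 4 ^ S * p / 2) ^ r)
        (by positivity)
        (by
          rw [card_cells]
          push_cast
          simp)
    refine le_trans (measureReal_mono ?_ (measure_ne_top _ _)) h2
    intro ω hω
    simp only [hbad, Set.mem_setOf_eq] at hω ⊢
    rw [hω]
    simp
    positivity

/-- The process fails with probability at most `4 / lam`. -/
theorem failure {p : ℝ} (h0 : 0 < p) (h1 : p ≤ 1) (r b S : ℕ) (κ lam : ℝ)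
    (hκ : κ = 2 ^ (S + 1) * b * p ^ (r - 1)) (hκ0 : 4 ≤ κ) (hr : 3 ≤ r) (hx : 2 * κ * p ≤ 1)
    (hlam : 4 ≤ lam) (hlamκ : 2 * lam ≤ κ ^ r)
    (hκlam : 2 ^ (r - 1 + 4) ≤ κ * lam) (hM : lam * 4 ^ S * p ≤ 1)
    (hS : 1 ≤ 16 ^ S * p) :
    (initLaw p).real {ω | lastCells r b S ω = ∅} ≤ 4 / lam := by
  haveI := initLaw_prob h0.le h1
  have hb : 1 ≤ b := by
    rcases Nat.eq_zero_or_pos b with h | h
    · rw [h] at hκ; simp at hκ; linarith
    · exact h
  have hb' : (0 : ℝ) < b := by exact_mod_cast hb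
  have h2 := stages h0 h1 r b S κ lam hκ (by linarith) hr hx (by linarith) hlamκ hκlam hM S le_rfl
  have h3 := last_stage h0 h1 r b S lam hr (by linarith) hb hM
  have hν : 4 * lam ≤ b * (lam * 4 ^ S * p / 2) ^ r := by
    -- `b p^(r-1) = κ / 2^(S+1)`
    have hrr : r - 1 + 1 = r := by omega
    have e1 : (b : ℝ) * p ^ (r - 1) = κ / 2 ^ (S + 1) := by
      rw [hκ]; field_simp
    have e2 : (b : ℝ) * (lam * 4 ^ S * p / 2) ^ r =
        κ / 2 ^ (S + 1) * (lam / 2) ^ r * ((4 ^ S) ^ r * p) := by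
      have : (lam * 4 ^ S * p / 2) ^ r = (lam / 2) ^ r * (4 ^ S) ^ r * (p ^ (r - 1) * p) := by
        rw [← pow_succ, hrr, ← mul_pow, ← mul_pow]; congr 1; ring
      rw [this, ← e1]
      ring
    rw [e2]
    have e3 : (64 : ℝ) ^ S ≤ (4 ^ S) ^ r := by
      have : (64 : ℝ) ^ S = (4 ^ S) ^ 3 := by
        rw [← pow_mul, mul_comm, pow_mul]; norm_num
      rw [this]
      exact pow_le_pow_right₀ (one_le_pow₀ (by norm_num)) hr
    have e4 : (4 : ℝ) ^ S ≤ (4 ^ S) ^ r * p := by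
      calc (4 : ℝ) ^ S = 4 ^ S * 1 := by ring
        _ ≤ 4 ^ S * (16 ^ S * p) := by gcongr
        _ = 64 ^ S * p := by rw [← mul_assoc, ← mul_pow]; norm_num
        _ ≤ (4 ^ S) ^ r * p := by gcongr
    have e5 : (2 : ℝ) ^ S ≤ 4 ^ S := pow_le_pow_left₀ (by norm_num) (by norm_num) S
    have e6 : (lam / 2) ^ 2 * (lam / 2) ≤ (lam / 2) ^ r := by
      rw [← pow_succ]
      exact pow_le_pow_right₀ (by linarith) hr
    have e7 : 2 * lam ≤ (lam / 2) ^ r := by
      refine le_trans ?_ e6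
      nlinarith
    calc 4 * lam ≤ κ / 2 * (2 * lam) := by nlinarith
      _ = κ / 2 ^ (S + 1) * (2 * lam) * 2 ^ S := by
          rw [pow_succ]; field_simp
      _ ≤ κ / 2 ^ (S + 1) * (lam / 2) ^ r * ((4 ^ S) ^ r * p) := by
          apply mul_le_mul _ (e5.trans e4) (by positivity) (by positivity)
          apply mul_le_mul_of_nonneg_left e7 (by positivity)
  have hsub : {ω | lastCells r b S ω = ∅} ⊆
      {ω | ((V r b S ω S).card : ℝ) < lam * 4 ^ S} ∪
      {ω | lam * 4 ^ S ≤ ((V r b S ω S).card : ℝ) ∧ lastCells r b S ω = ∅} := by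
    intro ω hω
    by_cases h : ((V r b S ω S).card : ℝ) < lam * 4 ^ S
    · left; exact h
    · right; exact ⟨not_lt.mp h, hω⟩
  have hν0 : 0 < 4 * lam := by linarith
  calc _ ≤ _ := measureReal_mono hsub (measure_ne_top _ _)
    _ ≤ _ := measureReal_union_le _ _
    _ ≤ (3 - (1 / 4) ^ S) / lam + 4 / (b * (lam * 4 ^ S * p / 2) ^ r) := add_le_add h2 h3
    _ ≤ 3 / lam + 4 / (4 * lam) := by
        have : (0 : ℝ) < (1 / 4) ^ S := by positivity
        gcongr
        linarith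
    _ = 4 / lam := by field_simp; norm_num

end Pool.Agent.LineGrowth
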