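import Pool.Agent.LineGrowth.Stage
import Pool.Agent.LineGrowth.Dyn

/-!
The multi stage exploration process.
-/

set_option autoImplicit false
open MeasureTheory ProbabilityTheory
open scoped ENNReal

namespace Pool.Agent.LineGrowth

/-- Adaptive union bound. -/
lemma adapt {p : ℝ} (h0 : 0 ≤ p) (h1 : p ≤ 1) (V : Cfg → Finset ℕ) (T U : Finset (ℤ × ℤ))
    (hV : ∀ ω ω' : Cfg, (∀ x ∈ T, ω x = ω' x) → V ω = V ω') (P : Finset (Finset ℕ))
    (bad : Finset ℕ → Set Cfg) (hbad : ∀ K ∈ P, DetBy (bad K) U) (hTU : Disjoint T U) (δ : ℝ)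
    (hδ0 : 0 ≤ δ) (hδ : ∀ K ∈ P, (initLaw p).real (bad K) ≤ δ) :
    (initLaw p).real {ω | V ω ∈ P ∧ ω ∈ bad (V ω)} ≤ δ := by
  haveI := initLaw_prob h0 h1
  have hdet : ∀ K : Finset ℕ, DetBy {ω | V ω = K} T := by
    intro K ω ω' h
    simp only [Set.mem_setOf_eq]
    rw [hV ω ω' h]
  have hsub : {ω | V ω ∈ P ∧ ω ∈ bad (V ω)} ⊆ ⋃ K ∈ P, ({ω | V ω = K} ∩ bad K) := by
    rintro ω ⟨h2, h3⟩
    simp only [Set.mem_iUnion]
    exact ⟨V ω, h2, rfl, h3⟩
  have hsum : ∑ K ∈ P, (initLaw p).real {ω | V ω = K} ≤ 1 := by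
    rw [← measureReal_biUnion_finset]
    · exact measureReal_le_one
    · intro K _ K' _ hKK
      rw [Function.onFun, Set.disjoint_left]
      intro ω h2 h3
      apply hKK
      rw [Set.mem_setOf_eq] at h2 h3
      rw [← h2, ← h3]
    · intro K _
      exact (hdet K).measurableSet
  calc (initLaw p).real {ω | V ω ∈ P ∧ ω ∈ bad (V ω)}
      ≤ (initLaw p).real (⋃ K ∈ P, ({ω | V ω = K} ∩ bad K)) :=
        measureReal_mono hsub (measure_ne_top _ _)
    _ ≤ ∑ K ∈ P, (initLaw p).real ({ω | V ω = K} ∩ bad K) := measureReal_biUnion_finset_le _ _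
    _ = ∑ K ∈ P, (initLaw p).real {ω | V ω = K} * (initLaw p).real (bad K) := by
        refine Finset.sum_congr rfl fun K hK => ?_
        exact real_indep h0 h1 (hdet K) (hbad K hK) hTU
    _ ≤ ∑ K ∈ P, (initLaw p).real {ω | V ω = K} * δ := by
        refine Finset.sum_le_sum fun K hK => ?_
        exact mul_le_mul_of_nonneg_left (hδ K hK) measureReal_nonneg
    _ = (∑ K ∈ P, (initLaw p).real {ω | V ω = K}) * δ := by rw [Finset.sum_mul]
    _ ≤ 1 * δ := mul_le_mul_of_nonneg_right hsum hδ0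
    _ = δ := one_mul δ

/-- Cells of level `j`. -/
def cells (b j : ℕ) : Finset ℕ := Finset.Ico (2 ^ j * b) (2 ^ (j + 1) * b)

lemma card_cells (b j : ℕ) : (cells b j).card = 2 ^ j * b := by
  unfold cells
  rw [Nat.card_Ico, pow_succ]
  have : 2 ^ j * 2 * b = 2 ^ j * b + 2 ^ j * b := by ring
  rw [this, Nat.add_sub_cancel]

lemma mem_cells {b j c : ℕ} : c ∈ cells b j ↔ 2 ^ j * b ≤ c ∧ c < 2 ^ (j + 1) * b := by
  unfold cells; rw [Finset.mem_Ico]

/-- Attempts of the initial stage: `r` consecutive occupied sites. -/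
def att0 (r : ℕ) (v : ℤ) (g : ℕ) : Finset (ℤ × ℤ) :=
  (Finset.range r).image fun k : ℕ => st 0 ((r : ℤ) * g + k) v

/-- Attempts of the later stages: one site next to a group of `r - 1` full crossing lines. -/
def attS (r s : ℕ) (v : ℤ) (g : ℕ) : Finset (ℤ × ℤ) := {st s ((r : ℤ) * g + ((r : ℤ) - 1)) v}

/-- The sets of good cells. -/
noncomputable def V (r b S : ℕ) (ω : Cfg) : ℕ → Finset ℕ
  | 0 => goodCells r (cells b (S + 2)) (att0 r) (r - 1) (cells b (S + 1)) ω
  | s + 1 => goodCells r (V r b S ω s) (attS r (s + 1)) (r - 1) (cells b (S - s)) ω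

lemma V_subset (r b S : ℕ) (ω : Cfg) (s : ℕ) (hs : s ≤ S) :
    V r b S ω s ⊆ cells b (S + 1 - s) := by
  intro c hc
  cases s with
  | zero =>
    rw [V, mem_goodCells] at hc
    exact hc.1
  | succ s =>
    rw [V, mem_goodCells] at hc
    have : S + 1 - (s + 1) = S - s := by omega
    rw [this]
    exact hc.1

/-- The box containing all sites considered. -/
noncomputable def box (r b S : ℕ) : Finset (ℤ × ℤ) :=
  (Finset.Ico (0 : ℤ) (r * 2 ^ (S + 3) * b)) ×ˢ (Finset.Ico (0 : ℤ) (r * 2 ^ (S + 3) * b))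

/-- Sites of the box whose larger coordinate is at least `θ`. -/
noncomputable def outer (r b S : ℕ) (θ : ℤ) : Finset (ℤ × ℤ) := (box r b S).filter fun x => θ ≤ max x.1 x.2

/-- Sites of the box whose larger coordinate is less than `θ`. -/
noncomputable def inner (r b S : ℕ) (θ : ℤ) : Finset (ℤ × ℤ) := (box r b S).filter fun x => max x.1 x.2 < θ

lemma disjoint_outer_inner (r b S : ℕ) (θ : ℤ) : Disjoint (outer r b S θ) (inner r b S θ) := by
  rw [Finset.disjoint_left]
  intro x hx hx'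
  unfold outer at hx
  unfold inner at hx'
  rw [Finset.mem_filter] at hx hx'
  exact absurd hx.2 (not_le.mpr hx'.2)

lemma st_mem_box {r b S s : ℕ} {u v : ℤ} (hu : 0 ≤ u) (hu' : u < r * 2 ^ (S + 3) * b)
    (hv : 0 ≤ v) (hv' : v < r * 2 ^ (S + 3) * b) : st s u v ∈ box r b S := by
  unfold st box
  by_cases h : Even s
  · rw [if_pos h]; simp only [Finset.mem_product, Finset.mem_Ico]; exact ⟨⟨hu, hu'⟩, hv, hv'⟩
  · rw [if_neg h]; simp only [Finset.mem_product, Finset.mem_Ico]; exact ⟨⟨hv, hv'⟩, hu, hu'⟩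

lemma max_st (s : ℕ) (u v : ℤ) : max (st s u v).1 (st s u v).2 = max u v := by
  unfold st
  by_cases h : Even s
  · rw [if_pos h]
  · rw [if_neg h]; exact max_comm _ _

/-- Position bounds for a line or a site in a cell of level at most `j`. -/
lemma cell_lt {r b j c i : ℕ} (hc : c < 2 ^ j * b) (hi : i < r) :
    (r : ℤ) * c + i < r * 2 ^ j * b := by
  have h1 : r * c + i < r * 2 ^ j * b := by
    calc r * c + i < r * c + r := by omega
      _ = r * (c + 1) := by ring
      _ ≤ r * (2 ^ j * b) := Nat.mul_le_mul_left r hc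
      _ = r * 2 ^ j * b := by ring
  exact_mod_cast h1

lemma cell_ge {r b j c : ℕ} (hc : 2 ^ j * b ≤ c) (i : ℕ) :
    (r : ℤ) * 2 ^ j * b ≤ r * c + i := by
  have h1 : r * 2 ^ j * b ≤ r * c + i := by
    calc r * 2 ^ j * b = r * (2 ^ j * b) := by ring
      _ ≤ r * c := Nat.mul_le_mul_left r hc
      _ ≤ r * c + i := Nat.le_add_right _ _
  exact_mod_cast h1

lemma pow_mono_mul {r b i j : ℕ} (h : i ≤ j) : (r : ℤ) * 2 ^ i * b ≤ r * 2 ^ j * b := by
  have h1 : r * 2 ^ i * b ≤ r * 2 ^ j * b :=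
    Nat.mul_le_mul_right b (Nat.mul_le_mul_left r (Nat.pow_le_pow_right (by norm_num) h))
  exact_mod_cast h1

lemma supp_zero (r b S : ℕ) (k : ℕ) (hk : k ≤ r) :
    supp r (cells b (S + 2)) (att0 r) k (cells b (S + 1)) ⊆
      outer r b S (r * 2 ^ (S + 2) * b) := by
  intro x hx
  unfold supp at hx
  simp only [Finset.mem_biUnion, Finset.mem_range] at hx
  obtain ⟨c, hc, i, hi, g, hg, hx⟩ := hx
  unfold att0 at hx
  rw [Finset.mem_image] at hx
  obtain ⟨l, hl, rfl⟩ := hx
  rw [Finset.mem_range] at hl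
  rw [mem_cells] at hc hg
  have hir : i < r := hi.trans_le hk
  have e1 : (r : ℤ) * g + l < r * 2 ^ (S + 3) * b := cell_lt hg.2 hl
  have e2 : (r : ℤ) * c + i < r * 2 ^ (S + 2) * b := cell_lt hc.2 hir
  have e3 := cell_ge (r := r) hg.1 l
  have e4 := pow_mono_mul (r := r) (b := b) (show S + 2 ≤ S + 3 by omega)
  unfold outer
  rw [Finset.mem_filter]
  refine ⟨st_mem_box (by positivity) e1 (by positivity) (e2.trans_le e4), ?_⟩
  rw [max_st]
  exact le_max_of_le_left e3

lemma supp_succ_outer (r b S s : ℕ) (hs : s + 1 ≤ S) (K : Finset ℕ)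
    (hK : K ⊆ cells b (S + 1 - s)) (hr : 1 ≤ r) (k : ℕ) (hk : k ≤ r) :
    supp r K (attS r (s + 1)) k (cells b (S - s)) ⊆
      outer r b S (r * 2 ^ (S + 1 - s) * b) := by
  intro x hx
  unfold supp at hx
  simp only [Finset.mem_biUnion, Finset.mem_range] at hx
  obtain ⟨c, hc, i, hi, g, hg, hx⟩ := hx
  unfold attS at hx
  rw [Finset.mem_singleton] at hx
  subst hx
  have hg := hK hg
  rw [mem_cells] at hc hg
  have hir : i < r := hi.trans_le hk
  have hcast : ((r : ℤ) - 1) = ((r - 1 : ℕ) : ℤ) := by push_cast [hr]; ring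
  rw [hcast]
  have e1 : (r : ℤ) * g + ((r - 1 : ℕ) : ℤ) < r * 2 ^ (S + 1 - s + 1) * b :=
    cell_lt hg.2 (by omega)
  have e2 : (r : ℤ) * c + i < r * 2 ^ (S - s + 1) * b := cell_lt hc.2 hir
  have e3 := cell_ge (r := r) hg.1 (r - 1)
  have e4 := pow_mono_mul (r := r) (b := b) (show S + 1 - s + 1 ≤ S + 3 by omega)
  have e5 := pow_mono_mul (r := r) (b := b) (show S - s + 1 ≤ S + 3 by omega)
  unfold outer
  rw [Finset.mem_filter]
  refine ⟨st_mem_box (by positivity) (e1.trans_le e4) (by positivity) (e2.trans_le e5), ?_⟩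
  rw [max_st]
  exact le_max_of_le_left e3

/-- The sites used by the stage after stage `s` lie inside. Here `j = S - s` or the last stage. -/
lemma supp_inner (r b S l j : ℕ) (hj : j + 1 ≤ l) (hl : l ≤ S + 1) (s' : ℕ) (K : Finset ℕ)
    (hK : K ⊆ cells b l) (hr : 1 ≤ r) (k : ℕ) (hk : k ≤ r) :
    supp r K (attS r s') k (cells b j) ⊆ inner r b S (r * 2 ^ (l + 1) * b) := by
  intro x hx
  unfold supp at hx
  simp only [Finset.mem_biUnion, Finset.mem_range] at hx
  obtain ⟨c, hc, i, hi, g, hg, hx⟩ := hx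
  unfold attS at hx
  rw [Finset.mem_singleton] at hx
  subst hx
  have hg := hK hg
  rw [mem_cells] at hc hg
  have hir : i < r := hi.trans_le hk
  have hcast : ((r : ℤ) - 1) = ((r - 1 : ℕ) : ℤ) := by push_cast [hr]; ring
  rw [hcast]
  have e1 : (r : ℤ) * g + ((r - 1 : ℕ) : ℤ) < r * 2 ^ (l + 1) * b :=
    cell_lt hg.2 (by omega)
  have e2 : (r : ℤ) * c + i < r * 2 ^ (j + 1) * b := cell_lt hc.2 hir
  have e4 := pow_mono_mul (r := r) (b := b) (show l + 1 ≤ S + 3 by omega)
  have e5 := pow_mono_mul (r := r) (b := b) (show j + 1 ≤ l + 1 by omega)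
  unfold inner
  rw [Finset.mem_filter]
  refine ⟨st_mem_box (by positivity) (e1.trans_le e4) (by positivity)
    ((e2.trans_le e5).trans_le e4), ?_⟩
  rw [max_st]
  exact max_lt e1 (e2.trans_le e5)

lemma outer_mono (r b S : ℕ) {θ θ' : ℤ} (h : θ ≤ θ') : outer r b S θ' ⊆ outer r b S θ := by
  intro x hx
  unfold outer at hx ⊢
  rw [Finset.mem_filter] at hx ⊢
  exact ⟨hx.1, h.trans hx.2⟩

/-- `V s` is determined by the outer sites. -/
lemma V_congr (r b S : ℕ) (hr : 1 ≤ r) (s : ℕ) (hs : s ≤ S) (ω ω' : Cfg)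
    (h : ∀ x ∈ outer r b S (r * 2 ^ (S + 2 - s) * b), ω x = ω' x) :
    V r b S ω s = V r b S ω' s := by
  induction s with
  | zero =>
    rw [V, V]
    apply goodCells_congr
    intro x hx
    exact h x (supp_zero r b S (r - 1) (by omega) hx)
  | succ s ih =>
    have h1 : V r b S ω s = V r b S ω' s := by
      apply ih (by omega)
      intro x hx
      apply h
      exact outer_mono r b S (pow_mono_mul (by omega)) hx
    rw [V, V, h1]
    apply goodCells_congr
    intro x hx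
    apply h
    have h2 : S + 2 - (s + 1) = S + 1 - s := by omega
    rw [h2]
    exact supp_succ_outer r b S s hs _ (V_subset r b S ω' s (by omega)) hr (r - 1) (by omega) hx

end Pool.Agent.LineGrowth
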