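import Pool.Agent.LineGrowth.Cheb

/-!
Cells of lines all of which succeed: probability estimates for one stage.
-/

set_option autoImplicit false
open MeasureTheory ProbabilityTheory
open scoped ENNReal

namespace Pool.Agent.LineGrowth

/-- All sites of `F` are occupied. -/
def allOcc (F : Finset (ℤ × ℤ)) : Set Cfg := {ω | ∀ x ∈ F, ω x = true}

lemma detBy_allOcc (F : Finset (ℤ × ℤ)) : DetBy (allOcc F) F := by
  intro ω ω' h
  simp only [allOcc, Set.mem_setOf_eq]
  exact forall₂_congr fun x hx => by rw [h x hx]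

lemma real_allOcc {p : ℝ} (h0 : 0 ≤ p) (h1 : p ≤ 1) (F : Finset (ℤ × ℤ)) :
    (initLaw p).real (allOcc F) = p ^ F.card := by
  have h := real_biInter h0 h1 F (fun x => {ω : Cfg | ω x = true}) (fun x => {x})
    (fun x _ => detBy_site x) (fun x _ y _ hxy => by simpa using hxy)
  have h2 : allOcc F = ⋂ x ∈ F, {ω : Cfg | ω x = true} := by
    ext ω; simp [allOcc]
  rw [h2, h.2]
  simp [real_site h0 h1]

/-- Some attempt succeeds. -/
def lineEv (K : Finset ℕ) (att : ℕ → Finset (ℤ × ℤ)) : Set Cfg :=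
  {ω | ∃ g ∈ K, ∀ x ∈ att g, ω x = true}

lemma lineEv_compl (K : Finset ℕ) (att : ℕ → Finset (ℤ × ℤ)) :
    (lineEv K att)ᶜ = ⋂ g ∈ K, (allOcc (att g))ᶜ := by
  ext ω
  simp [lineEv, allOcc]

lemma detBy_lineEv (K : Finset ℕ) (att : ℕ → Finset (ℤ × ℤ)) :
    DetBy (lineEv K att) (K.biUnion att) := by
  intro ω ω' h
  simp only [lineEv, Set.mem_setOf_eq]
  refine exists_congr fun g => and_congr_right fun hg => ?_
  refine forall₂_congr fun x hx => ?_
  rw [h x (Finset.mem_biUnion.mpr ⟨g, hg, hx⟩)]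

lemma real_lineEv {p : ℝ} (h0 : 0 ≤ p) (h1 : p ≤ 1) (K : Finset ℕ) (att : ℕ → Finset (ℤ × ℤ))
    (f : ℕ) (hf : ∀ g ∈ K, (att g).card = f)
    (hd : ∀ g ∈ K, ∀ g' ∈ K, g ≠ g' → Disjoint (att g) (att g')) :
    (initLaw p).real (lineEv K att) = 1 - (1 - p ^ f) ^ K.card := by
  haveI := initLaw_prob h0 h1
  have h := real_biInter h0 h1 K (fun g => (allOcc (att g))ᶜ) att
    (fun g _ => (detBy_allOcc _).compl) hd
  have h2 : (initLaw p).real (lineEv K att)ᶜ = (1 - p ^ f) ^ K.card := by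
    rw [lineEv_compl, h.2, ← Finset.prod_const]
    refine Finset.prod_congr rfl fun g hg => ?_
    rw [probReal_compl_eq_one_sub (detBy_allOcc _).measurableSet, real_allOcc h0 h1, hf g hg]
  have h3 := probReal_compl_eq_one_sub (μ := initLaw p) (detBy_lineEv K att).measurableSet
  linarith

/-- The cells `c` of `B` all of whose first `k` lines succeed. -/
noncomputable def goodCells (r : ℕ) (K : Finset ℕ) (att : ℤ → ℕ → Finset (ℤ × ℤ)) (k : ℕ) (B : Finset ℕ)
    (ω : Cfg) : Finset ℕ :=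
  open Classical in B.filter fun c => ∀ i < k, ω ∈ lineEv K (att ((r : ℤ) * c + i))

lemma mem_goodCells {r : ℕ} {K : Finset ℕ} {att : ℤ → ℕ → Finset (ℤ × ℤ)} {k : ℕ}
    {B : Finset ℕ} {ω : Cfg} {c : ℕ} :
    c ∈ goodCells r K att k B ω ↔ c ∈ B ∧ ∀ i < k, ω ∈ lineEv K (att ((r : ℤ) * c + i)) := by
  classical
  unfold goodCells
  rw [Finset.mem_filter]

/-- Sites on which the good cells depend. -/
def supp (r : ℕ) (K : Finset ℕ) (att : ℤ → ℕ → Finset (ℤ × ℤ)) (k : ℕ) (B : Finset ℕ) :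
    Finset (ℤ × ℤ) :=
  B.biUnion fun c => (Finset.range k).biUnion fun i => K.biUnion (att ((r : ℤ) * c + i))

lemma goodCells_congr (r : ℕ) (K : Finset ℕ) (att : ℤ → ℕ → Finset (ℤ × ℤ)) (k : ℕ)
    (B : Finset ℕ) (ω ω' : Cfg) (h : ∀ x ∈ supp r K att k B, ω x = ω' x) :
    goodCells r K att k B ω = goodCells r K att k B ω' := by
  ext c
  rw [mem_goodCells, mem_goodCells]
  refine and_congr_right fun hc => forall₂_congr fun i hi => ?_
  refine detBy_lineEv K (att ((r : ℤ) * c + i)) ω ω' fun x hx => h x ?_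
  unfold supp
  rw [Finset.mem_biUnion]
  refine ⟨c, hc, ?_⟩
  rw [Finset.mem_biUnion]
  exact ⟨i, Finset.mem_range.mpr hi, hx⟩

lemma aux_le (x y : ℝ) (K : ℕ) (hx0 : 0 ≤ x) (hx1 : x ≤ 1) (hy0 : 0 ≤ y) (hy1 : y ≤ 1)
    (hy : y ≤ K * x) : y / 2 ≤ 1 - (1 - x) ^ K := by
  have h1 : (1 - x) ^ K ≤ Real.exp (-(K * x)) := by
    have h2 : 1 - x ≤ Real.exp (-x) := by
      have := Real.add_one_le_exp (-x)
      linarith
    calc (1 - x) ^ K ≤ (Real.exp (-x)) ^ K := pow_le_pow_left₀ (by linarith) h2 K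
      _ = Real.exp (-(K * x)) := by rw [← Real.exp_nat_mul]; congr 1; ring
  have h3 : Real.exp (-(K * x)) ≤ Real.exp (-y) := Real.exp_le_exp.mpr (by linarith)
  have h4 : Real.exp (-y) ≤ 1 - y / 2 := by
    have h5 := Real.exp_bound_div_one_sub_of_interval (x := y / 2) (by linarith)
    have h6 : 1 + y ≤ Real.exp y := by
      have := Real.add_one_le_exp y; linarith
    rw [Real.exp_neg]
    have h7 : (Real.exp y)⁻¹ ≤ (1 + y)⁻¹ := inv_anti₀ (by linarith) h6
    refine h7.trans ?_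
    rw [inv_le_iff_one_le_mul₀ (by linarith)]
    nlinarith
  linarith

/-- One stage: with high probability at least half the expected number of cells is good. -/
theorem stage {p : ℝ} (h0 : 0 ≤ p) (h1 : p ≤ 1) (r : ℕ) (K : Finset ℕ)
    (att : ℤ → ℕ → Finset (ℤ × ℤ)) (k : ℕ) (hk : k ≤ r) (B : Finset ℕ) (f : ℕ)
    (hf : ∀ v : ℤ, ∀ g ∈ K, (att v g).card = f)
    (hd : ∀ v v' : ℤ, ∀ g ∈ K, ∀ g' ∈ K, (v ≠ v' ∨ g ≠ g') → Disjoint (att v g) (att v' g'))
    (y : ℝ) (hy0 : 0 < y) (hy1 : y ≤ 1) (hy : y ≤ K.card * p ^ f) (ν : ℝ) (hν : 0 < ν)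
    (hνB : ν ≤ B.card * (y / 2) ^ k) :
    (initLaw p).real {ω | ((goodCells r K att k B ω).card : ℝ) ≤ ν / 2} ≤ 4 / ν := by
  classical
  haveI := initLaw_prob h0 h1
  set A : ℕ → Set Cfg := fun c => ⋂ i ∈ Finset.range k, lineEv K (att ((r : ℤ) * c + i)) with hA
  set F : ℕ → Finset (ℤ × ℤ) := fun c =>
    (Finset.range k).biUnion fun i => K.biUnion (att ((r : ℤ) * c + i)) with hF
  have hline : ∀ v : ℤ, y / 2 ≤ (initLaw p).real (lineEv K (att v)) := by
    intro v
    rw [real_lineEv h0 h1 K (att v) f (hf v) (fun g hg g' hg' hgg => hd v v g hg g' hg' (Or.inr hgg))]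
    exact aux_le _ _ _ (by positivity) (pow_le_one₀ h0 h1) hy0.le hy1 hy
  have hlined : ∀ v v' : ℤ, v ≠ v' → Disjoint (K.biUnion (att v)) (K.biUnion (att v')) := by
    intro v v' hv
    rw [Finset.disjoint_biUnion_left]
    intro g hg
    rw [Finset.disjoint_biUnion_right]
    intro g' hg'
    exact hd v v' g hg g' hg' (Or.inl hv)
  have hcell : ∀ c : ℕ, DetBy (A c) (F c) ∧
      (initLaw p).real (A c) = ∏ i ∈ Finset.range k,
        (initLaw p).real (lineEv K (att ((r : ℤ) * c + i))) := by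
    intro c
    exact real_biInter h0 h1 (Finset.range k) (fun i => lineEv K (att ((r : ℤ) * c + i)))
      (fun i => K.biUnion (att ((r : ℤ) * c + i))) (fun i _ => detBy_lineEv _ _)
      (fun i _ j _ hij => hlined _ _ (by
        intro h; apply hij; have : (i : ℤ) = j := by linarith
        exact_mod_cast this))
  have hcard : ∀ ω, (∑ c ∈ B, (A c).indicator (fun _ => (1 : ℝ)) ω) =
      ((goodCells r K att k B ω).card : ℝ) := by
    intro ω
    unfold goodCells
    rw [Finset.card_filter]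
    push_cast
    refine Finset.sum_congr rfl fun c _ => ?_
    by_cases hc : ∀ i < k, ω ∈ lineEv K (att ((r : ℤ) * c + i))
    · rw [if_pos hc, Set.indicator_of_mem]
      simp only [hA, Set.mem_iInter, Finset.mem_range]
      exact hc
    · rw [if_neg hc, Set.indicator_of_notMem]
      simp only [hA, Set.mem_iInter, Finset.mem_range]
      exact hc
  have hmain := cheb h0 h1 B A F (fun c _ => (hcell c).1) ?_ ν hν ?_
  · simp_rw [hcard] at hmain
    exact hmain
  · intro c _ c' _ hcc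
    rw [hF]
    simp only
    rw [Finset.disjoint_biUnion_left]
    intro i hi
    rw [Finset.disjoint_biUnion_right]
    intro j hj
    apply hlined
    intro h
    apply hcc
    have hi' : i < r := (Finset.mem_range.mp hi).trans_le hk
    have hj' : j < r := (Finset.mem_range.mp hj).trans_le hk
    have h' : r * c + i = r * c' + j := by exact_mod_cast h
    have e1 : (r * c + i) / r = c := by
      rw [Nat.mul_add_div (by omega), Nat.div_eq_of_lt hi', add_zero]
    have e2 : (r * c' + j) / r = c' := by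
      rw [Nat.mul_add_div (by omega), Nat.div_eq_of_lt hj', add_zero]
    rw [← e1, ← e2, h']
  · refine hνB.trans ?_
    rw [← nsmul_eq_mul, ← Finset.sum_const]
    refine Finset.sum_le_sum fun c _ => ?_
    rw [(hcell c).2]
    calc (y / 2) ^ k = ∏ i ∈ Finset.range k, (y / 2) := by
          rw [Finset.prod_const, Finset.card_range]
      _ ≤ _ := Finset.prod_le_prod (fun i _ => by positivity) (fun i _ => hline _)

end Pool.Agent.LineGrowth
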